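import Pool.Agent.EI28L.Fin
import Pool.Agent.EI28.ToMatrix

set_option autoImplicit false

/-! The final inequality with `q ^ 2 = p / (1 + (p - 1) lam)`. -/

namespace Pool.Agent.EI28U

open Matrix Finset Module Pool.Agent.H32Iso Pool.Agent.EI28 Pool.Agent.EI28L

/-- as `LData.fin`, with the value of `q` -/
theorem fin_rho {m : Type*} [Fintype m] {n p : ℝ} {s : m → ℝ} (h : LData m n p s)
    (hn : 0 < n) (hp : 1 ≤ p) :
    ∃ q : ℝ, 1 < q ∧ q ^ 2 = (∑ a, s a) / n ∧ q ^ 2 ≤ (Fintype.card m : ℝ) / n ∧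
      ((Fintype.card m : ℝ) / n - 1) * (p - 1 + (q ^ 2 - 1) ^ 2) ≤
        (q + 1) ^ 2 * ((Fintype.card m : ℝ) / n - q) ^ 2 * ((n + 2) / 2) := by
  set ρ := ∑ a, s a with hρ
  have hρn : n < ρ := h.gt
  have hρ0 : 0 < ρ := by linarith
  set r : ℝ := (Fintype.card m : ℝ) with hr
  have hρr : ρ ≤ r := by
    have h1 : (∑ a, s a) ^ 2 ≤ Fintype.card m * ∑ a, s a ^ 2 := by
      have := sq_sum_le_card_mul_sum_sq (s := (univ : Finset m)) (f := s)
      rwa [card_univ] at this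
    rw [h.sq, ← hρ] at h1
    have h2 : ρ * ρ ≤ r * ρ := by rw [hr]; nlinarith
    exact le_of_mul_le_mul_right h2 hρ0
  set R : ℝ := r / n with hR
  have hrR : r = n * R := by rw [hR]; field_simp
  set q := Real.sqrt (ρ / n) with hq
  have hq2 : q ^ 2 = ρ / n := Real.sq_sqrt (by positivity)
  have hnq : n * q ^ 2 = ρ := by rw [hq2]; field_simp
  have hq1 : 1 < q := by
    rw [hq]
    apply Real.lt_sqrt_of_sq_lt
    rw [one_pow, lt_div_iff₀ hn]
    linarith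
  have hqR : q ^ 2 ≤ R := by
    rw [hq2, hR]
    exact div_le_div_of_nonneg_right hρr hn.le
  have hqlt : q < R := by nlinarith
  have htop : ∀ a, s a ≤ q := by
    intro a
    have h1 := h.top a
    rw [← hρ, ← hnq] at h1
    have h2 : s a ^ 2 ≤ q ^ 2 := le_of_mul_le_mul_left h1 hn
    exact le_of_sq_le_sq h2 (by linarith)
  refine ⟨q, hq1, hq2, hqR, ?_⟩
  have hRq : 0 < R - q := by linarith
  have hRq' : R - q ≠ 0 := hRq.ne'
  set sg := q * (q - 1) / (R - q) with hsg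
  have hsg0 : 0 ≤ sg := by
    rw [hsg]
    exact div_nonneg (mul_nonneg (by linarith) (by linarith)) hRq.le
  have hsp := spec h.nonneg htop hsg0 h.sq
  rw [← hρ, ← hr, hrR, ← hnq] at hsp
  set M := ∑ a, s a ^ 4 with hM
  have hM1 : M ≤ n * (q ^ 4 * (1 - (q - 1) ^ 2 * (R - 1) / (R - q) ^ 2)) := by
    have e : (q + sg) ^ 2 * (n * q ^ 2 - 2 * sg * (n * q ^ 2) + n * R * sg ^ 2)
        + 2 * sg ^ 2 * (n * q ^ 2) - n * R * sg ^ 4
        = n * (q ^ 4 * (1 - (q - 1) ^ 2 * (R - 1) / (R - q) ^ 2)) := by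
      rw [hsg]
      field_simp
      ring
    rw [← e]
    linarith
  have hst := h.star
  rw [← hρ, ← hM, ← hnq] at hst
  have hq4 : 0 < q ^ 4 := by positivity
  have h3 : n ^ 2 * q ^ 4 * ((q - 1) ^ 2 * (R - 1) / (R - q) ^ 2) ≤ (n * q ^ 2) ^ 2 - n * M := by
    nlinarith [mul_le_mul_of_nonneg_left hM1 hn.le]
  have h4 : 0 ≤ (p - 1) * n ^ 2 + (n * q ^ 2 - n) ^ 2 := by
    have : 0 ≤ (p - 1) * n ^ 2 := mul_nonneg (by linarith) (sq_nonneg _)
    positivity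
  have h5 := mul_le_mul_of_nonneg_right h3 h4
  have h6 := h5.trans hst
  have h7 : (n ^ 4 * q ^ 4 * (q - 1) ^ 2 / (R - q) ^ 2) * ((R - 1) * (p - 1 + (q ^ 2 - 1) ^ 2)) ≤
      (n ^ 4 * q ^ 4 * (q - 1) ^ 2 / (R - q) ^ 2) *
        ((q + 1) ^ 2 * (R - q) ^ 2 * ((n + 2) / 2)) := by
    refine le_trans (le_of_eq ?_) (h6.trans (le_of_eq ?_))
    · ring
    · field_simp
      ring
  have hq10 : 0 < q - 1 := by linarith
  exact le_of_mul_le_mul_left h7 (by positivity)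

variable {W : Type*} [NormedAddCommGroup W] [InnerProductSpace ℝ W] [FiniteDimensional ℝ W]
  {ι : Type*} [Fintype ι] [DecidableEq ι]

/-- If `lam ≥ 1 / 2 - 1 / (2 (p - 1))` then `p` is small. -/
theorem small_of_lam {lam : ℝ} {P : ι → W →ₗ[ℝ] W} (h : Cfg lam P) (h0 : 0 ≤ lam) (h1 : lam < 1)
    {N m : ℕ} (hN1 : 1 ≤ N) (hW : finrank ℝ W = 2 * N + m)
    (hN : ∀ i, finrank ℝ (LinearMap.range (P i)) = N) (hp : 2 ≤ Fintype.card ι)
    (hlam : 0 ≤ 1 + ((Fintype.card ι : ℝ) - 1) * (2 * lam - 1)) :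
    ((Fintype.card ι : ℝ) - 1) * N ≤ 3 * (N + m) * (N + 2) := by
  obtain ⟨Q, mu, hQ, hmu⟩ := exists_mcfg h hW hN
  have hN' : (1 : ℝ) ≤ N := by exact_mod_cast hN1
  have hN0 : (0 : ℝ) < N := by linarith
  have hp2 : (2 : ℝ) ≤ Fintype.card ι := by exact_mod_cast hp
  set p : ℝ := (Fintype.card ι : ℝ) with hpdef
  have hL := hQ.toLData hN' h0 h1 hp hmu
  obtain ⟨q, q1, q2, q3, q4⟩ := fin_rho hL hN0 (by linarith)
  rw [Fintype.card_fin] at q3 q4
  have hk : kap ι lam = 1 + (p - 1) * lam := rfl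
  have hkp : p / 2 ≤ kap ι lam := by rw [hk]; linarith
  have hk0 : 0 < kap ι lam := by linarith
  have hsum : ∑ a, mu a = N * p := by
    rw [hpdef, ← hQ.trS, hmu, trace_diagonal]
  have hq : q ^ 2 ≤ 2 := by
    rw [q2, ← sum_div, hsum, div_div, mul_comm (kap ι lam), mul_div_mul_left _ _ hN0.ne',
      div_le_iff₀ hk0]
    linarith
  have hq' : q ≤ 3 / 2 := by nlinarith
  set R : ℝ := ((2 * N + m : ℕ) : ℝ) / N with hR
  have hqR : q ≤ R := by nlinarith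
  have hRN : R * N = 2 * N + m := by
    rw [hR]
    push_cast
    field_simp
  have hR1 : 1 < R := by nlinarith
  have hR2 : 0 < R - 1 := by linarith
  have e1 : (q + 1) ^ 2 ≤ 6 := by nlinarith
  have e2 : (R - q) ^ 2 ≤ (R - 1) ^ 2 := by
    apply pow_le_pow_left₀ (by linarith)
    linarith
  have e3 : (q + 1) ^ 2 * (R - q) ^ 2 ≤ 6 * (R - 1) ^ 2 :=
    mul_le_mul e1 e2 (sq_nonneg _) (by norm_num)
  have e4 : (q + 1) ^ 2 * (R - q) ^ 2 * ((N + 2) / 2) ≤ 6 * (R - 1) ^ 2 * ((N + 2) / 2) :=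
    mul_le_mul_of_nonneg_right e3 (by positivity)
  have e5 : (R - 1) * (p - 1) ≤ (R - 1) * (p - 1 + (q ^ 2 - 1) ^ 2) := by
    apply mul_le_mul_of_nonneg_left _ hR2.le
    nlinarith [sq_nonneg (q ^ 2 - 1)]
  have e6 : (R - 1) * (p - 1) ≤ (R - 1) * (3 * (R - 1) * (N + 2)) := by
    calc (R - 1) * (p - 1) ≤ _ := e5
      _ ≤ _ := q4
      _ ≤ _ := e4
      _ = _ := by ring
  have e7 := le_of_mul_le_mul_left e6 hR2
  have e8 : (R - 1) * N = N + m := by linarith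
  calc (p - 1) * N ≤ 3 * (R - 1) * (N + 2) * N := mul_le_mul_of_nonneg_right e7 hN0.le
    _ = 3 * ((R - 1) * N) * (N + 2) := by ring
    _ = _ := by rw [e8]

end Pool.Agent.EI28U
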