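import Pool.Agent.EI28U.Restrict
import Pool.Agent.EI28U.FinTau
import Pool.Agent.EI97.GerzonAll
import Pool.Agent.H32Iso.Period

set_option autoImplicit false

/-! The uniform bound from the exact bound. -/

namespace Pool.Agent.EI28U

open Matrix Finset Module Pool.Agent.H32Iso Pool.Agent.EI28 Pool.Agent.EI28L Pool.Agent.EI97

/-- the exact bound at rank `N` in dimension `2 N + m` -/
noncomputable def fR (N m : ℝ) : ℝ := (2 * N + m) * (N + m + 2) / (2 * N)

theorem fR_eq {N m : ℝ} (hN : 0 < N) : fR N m = N + 3 * m / 2 + 2 + m * (m + 2) / (2 * N) := by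
  unfold fR
  field_simp
  ring

theorem fR_le {N N0 m : ℝ} (hN0 : 0 < N0) (hle : N0 ≤ N) (hm : 0 ≤ m) :
    fR N m ≤ max (fR N0 m) (N + N0 + 3 * m / 2 + 2) := by
  have hN : 0 < N := by linarith
  rcases le_total (m * (m + 2) / (2 * N)) N0 with h | h
  · refine le_trans ?_ (le_max_right _ _)
    rw [fR_eq hN]
    linarith
  · refine le_trans ?_ (le_max_left _ _)
    rw [fR_eq hN, fR_eq hN0]
    have h1 : 2 * N * N0 ≤ m * (m + 2) := by
      rw [le_div_iff₀ (by positivity)] at h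
      linarith
    have h2 : m * (m + 2) / (2 * N0) - m * (m + 2) / (2 * N) =
        m * (m + 2) * (N - N0) / (2 * N * N0) := by
      field_simp
    have h3 : N - N0 ≤ m * (m + 2) * (N - N0) / (2 * N * N0) := by
      rw [le_div_iff₀ (by positivity)]
      nlinarith [mul_le_mul_of_nonneg_right h1 (sub_nonneg.mpr hle)]
    linarith

variable {W : Type*} [NormedAddCommGroup W] [InnerProductSpace ℝ W] [FiniteDimensional ℝ W]
  {p : ℕ} {lam : ℝ} {P : Fin p → W →ₗ[ℝ] W}

/-- the exact bound for real configurations -/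
theorem exact_cfg (h : Cfg lam P) (h0 : 0 ≤ lam) (h1 : lam < 1) (hp : 2 ≤ p) {N m : ℕ}
    (hN1 : 1 ≤ N) (hW : finrank ℝ W = 2 * N + m)
    (hN : ∀ i, finrank ℝ (LinearMap.range (P i)) = N) : (p : ℝ) ≤ fR N m := by
  obtain ⟨Q, mu, hQ, hmu⟩ := exists_mcfg h hW hN
  have hNR : (1 : ℝ) ≤ N := by exact_mod_cast hN1
  have hN0 : (0 : ℝ) < N := by linarith
  have hJ := hQ.toJData hNR h0 h1 (by simpa using hp) hmu
  rw [Fintype.card_fin] at hJ
  obtain ⟨a, x, y, hred⟩ := hJ.red hN0
  have e : (Fintype.card (Fin (2 * N + m)) : ℝ) / (N : ℝ) = 2 + m / N := by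
    rw [Fintype.card_fin]
    push_cast
    field_simp
  rw [e] at hred
  have hm : (0 : ℝ) ≤ (m : ℝ) / N := by positivity
  have key := hred.bound hNR (by linarith)
  have e2 : fR N m = 1 + (2 + (m : ℝ) / N - 1) * (N * (2 + (m : ℝ) / N) + 2) / 2 := by
    unfold fR
    field_simp
    ring
  rw [e2]
  linarith

/-- `(4 l + 7) (2 l + 5) / 2 * m` -/
noncomputable def LL (m : ℕ) : ℝ :=
  m * ((4 * (Nat.log 2 m : ℝ) + 7) * (2 * (Nat.log 2 m : ℝ) + 5)) / 2

theorem LL_ge (m : ℕ) : 35 / 2 * (m : ℝ) ≤ LL m := by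
  unfold LL
  have h : (0 : ℝ) ≤ Nat.log 2 m := Nat.cast_nonneg _
  have hm : (0 : ℝ) ≤ m := Nat.cast_nonneg _
  have h1 : (35 : ℝ) ≤ (4 * (Nat.log 2 m : ℝ) + 7) * (2 * (Nat.log 2 m : ℝ) + 5) := by nlinarith
  nlinarith [mul_le_mul_of_nonneg_left h1 hm]

/-- Either the rank is small, or the number of members is small. -/
theorem core_or (h : Cfg lam P) (h0 : 0 ≤ lam) (h1 : lam < 1) {N m : ℕ}
    (hm : 1 ≤ m) (hN : ∀ i, finrank ℝ (LinearMap.range (P i)) = N)
    (hW : finrank ℝ W = 2 * N + m) (hspan : ⨆ i, LinearMap.range (P i) = ⊤) :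
    (p : ℝ) ≤ LL m + 2 * m + 3 ∨ ((N : ℝ) ≤ LL m ∧ 3 ≤ p) := by
  have hmR : (1 : ℝ) ≤ m := by exact_mod_cast hm
  have hLL := LL_ge m
  set l := Nat.log 2 m with hl
  set q := 4 * l + 9 with hq
  have hLq : LL m = m * ((q : ℝ) * (q - 1) - 2) / 4 := by
    unfold LL
    rw [← hl, hq]
    push_cast
    ring
  by_cases hqc : p < max q 3
  · -- few subspaces
    left
    have h2 : p ≤ q := by
      have : max q 3 = q := max_eq_left (by omega)
      omega
    have h3 : (p : ℝ) ≤ q := by exact_mod_cast h2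
    have hq9 : (9 : ℝ) ≤ q := by
      have : 9 ≤ q := by omega
      exact_mod_cast this
    have h4 : (q : ℝ) - 12 / 1 ≤ (q * (q - 1) - 2) / 4 := by nlinarith
    have h5 : ((q : ℝ) * (q - 1) - 2) / 4 ≤ LL m := by
      rw [hLq]
      have : 0 ≤ ((q : ℝ) * (q - 1) - 2) := by nlinarith
      nlinarith
    have h6 : (q : ℝ) ≤ LL m := by nlinarith
    linarith
  push Not at hqc
  have hqp : q ≤ p := (le_max_left _ _).trans hqc
  have hp3 : 3 ≤ p := (le_max_right _ _).trans hqc
  have hcard : Fintype.card (Fin p) = p := Fintype.card_fin p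
  -- the dimension of the complement of the common kernel
  obtain ⟨J, _, hJ⟩ := Finset.exists_subset_card_eq (s := (Finset.univ : Finset (Fin p)))
    (n := q) (by rw [Finset.card_univ, hcard]; exact hqp)
  have hstab := h.K_superset_eq h1.ne hN hW (fun t ht => pow_gt hm t ht) J hJ.ge Finset.univ
  have huniv : Finset.univ ∪ J = (Finset.univ : Finset (Fin p)) := by simp
  rw [huniv] at hstab
  have hge := h.finrank_K_ge h1.ne hN hW J
  rw [← hstab, hJ] at hge
  obtain ⟨N', hinv, hN'1, hN', hE, hsum⟩ := exists_core h h1.ne (by omega) hN hW hspan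
    (by rw [hcard]; exact hp3)
  have hdim : 2 * (2 * N' + m) ≤ m * (q * (q - 1)) := by omega
  have hN'L : (N' : ℝ) ≤ LL m := by
    have h2 : ((2 * (2 * N' + m) : ℕ) : ℝ) ≤ ((m * (q * (q - 1)) : ℕ) : ℝ) := by
      exact_mod_cast hdim
    rw [Nat.cast_mul m, Nat.cast_mul q, Nat.cast_sub (by omega)] at h2
    push_cast at h2
    rw [hLq]
    linarith
  by_cases hK : K lam P Finset.univ = ⊥
  · -- no common kernel
    right
    rw [hK, finrank_bot] at hsum
    have hNN : N = N' := by omega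
    rw [hNN]
    exact ⟨hN'L, hp3⟩
  · -- a common kernel
    left
    have hlam := h.lam_ge h1.ne hK
    rw [hcard] at hlam
    have hp0 : (0 : ℝ) < p := by
      have : 0 < p := by omega
      exact_mod_cast this
    have hlam' : 0 ≤ 1 + ((p : ℝ) - 1) * (2 * lam - 1) := nonneg_of_mul_nonneg_right hlam hp0
    have hC := cfg_rst h _ hinv
    have hN'R : (1 : ℝ) ≤ N' := by exact_mod_cast hN'1
    rcases le_total N' m with hc | hc
    · have h2 := small_of_lam hC h0 h1 hN'1 hE hN' (by rw [hcard]; omega) (by rw [hcard]; exact hlam')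
      rw [hcard] at h2
      have h3 : (N' : ℝ) ≤ m := by exact_mod_cast hc
      have h4 : 3 * ((N' : ℝ) + m) * (N' + 2) ≤ (12 * m + 6) * N' := by nlinarith
      have h5 : (p : ℝ) - 1 ≤ 12 * m + 6 := le_of_mul_le_mul_right (h2.trans h4) (by linarith)
      linarith
    · have h2 := exact_cfg hC h0 h1 (by omega) hN'1 hE hN'
      have h3 : (m : ℝ) ≤ N' := by exact_mod_cast hc
      rw [fR_eq (by linarith)] at h2
      have h4 : (m : ℝ) * (m + 2) / (2 * N') ≤ (m + 2) / 2 := by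
        rw [div_le_div_iff₀ (by linarith) (by norm_num)]
        nlinarith
      linarith

theorem core (h : Cfg lam P) (h0 : 0 ≤ lam) (h1 : lam < 1) {N m N0 : ℕ}
    (hm : 1 ≤ m) (hN : ∀ i, finrank ℝ (LinearMap.range (P i)) = N)
    (hW : finrank ℝ W = 2 * N + m) (hspan : ⨆ i, LinearMap.range (P i) = ⊤)
    (hN0 : 1 ≤ N0) (hle : N0 ≤ N) :
    (p : ℝ) ≤ max (fR N0 m) (LL m + N0 + 2 * m + 3) := by
  have hmR : (1 : ℝ) ≤ m := by exact_mod_cast hm
  have hN0R : (1 : ℝ) ≤ N0 := by exact_mod_cast hN0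
  have hNR : (N0 : ℝ) ≤ N := by exact_mod_cast hle
  rcases core_or h h0 h1 hm hN hW hspan with h2 | ⟨h2, hp3⟩
  · exact (h2.trans (by linarith)).trans (le_max_right _ _)
  · have h4 := exact_cfg h h0 h1 (by omega) (by omega) hW hN
    have h3 := fR_le (N := N) (N0 := N0) (m := m) (by linarith) hNR (by linarith)
    refine h4.trans (h3.trans (max_le_max le_rfl ?_))
    linarith

end Pool.Agent.EI28U
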