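import Pool.Agent.EI28U.Sizes

set_option autoImplicit false

/-! The uniform bound for real planes and higher subspaces. -/

namespace Pool.Agent.EI28U

open Finset Module Pool.Agent.H32Iso Pool.Agent.H94EI

theorem real_large {n n0 k p : ℕ} (hn0 : 1 ≤ n0) (hn : n0 ≤ n) (hk : 2048 * n0 ^ 2 ≤ k)
    (hp : p ∈ sizes ℝ n (2 * n + k)) :
    (p : ℝ) ≤ (2 * (n0 : ℝ) + k) * (n0 + k + 2) / (2 * n0) := by
  have h := large_uniform (by rw [finrank_self]; norm_num) hn0 hn hk hp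
  rw [finrank_self] at h
  simpa using h

theorem complex_large {n n0 k p : ℕ} (hn0 : 1 ≤ n0) (hn : n0 ≤ n) (hk : 2048 * n0 ^ 2 ≤ k)
    (hp : p ∈ sizes ℂ n (2 * n + k)) :
    (p : ℝ) ≤ (2 * (n0 : ℝ) + k) * (2 * n0 + 2 * k + 2) / (2 * n0) := by
  have h := large_uniform (by rw [Complex.finrank_real_complex]; norm_num) hn0 hn hk hp
  rw [Complex.finrank_real_complex] at h
  exact_mod_cast h

theorem quaternion_large {n n0 k p : ℕ} (hn0 : 1 ≤ n0) (hn : n0 ≤ n) (hk : 2048 * n0 ^ 2 ≤ k)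
    (hp : p ∈ sizes (Quaternion ℝ) n (2 * n + k)) :
    (p : ℝ) ≤ (2 * (n0 : ℝ) + k) * (4 * n0 + 4 * k + 2) / (2 * n0) := by
  have h := large_uniform (by rw [Quaternion.finrank_eq_four]) hn0 hn hk hp
  rw [Quaternion.finrank_eq_four] at h
  exact_mod_cast h

theorem real_max {n n0 k p : ℕ} (hn0 : 1 ≤ n0) (hn : n0 ≤ n) (hk : 1 ≤ k)
    (hp : p ∈ sizes ℝ n (2 * n + k)) :
    (p : ℝ) ≤ max ((2 * (n0 : ℝ) + k) * (n0 + k + 2) / (2 * n0)) (LL k + n0 + 2 * k + 3) := by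
  have h := sizes_uniform hn0 hn hk hp
  rw [finrank_self] at h
  simpa using h

theorem complex_max {n n0 k p : ℕ} (hn0 : 1 ≤ n0) (hn : n0 ≤ n) (hk : 1 ≤ k)
    (hp : p ∈ sizes ℂ n (2 * n + k)) :
    (p : ℝ) ≤ max ((2 * (n0 : ℝ) + k) * (2 * n0 + 2 * k + 2) / (2 * n0))
      (LL (2 * k) + 2 * n0 + 4 * k + 3) := by
  have h := sizes_uniform hn0 hn hk hp
  rw [Complex.finrank_real_complex] at h
  refine h.trans (le_of_eq ?_)
  push_cast
  congr 1
  ring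

theorem quaternion_max {n n0 k p : ℕ} (hn0 : 1 ≤ n0) (hn : n0 ≤ n) (hk : 1 ≤ k)
    (hp : p ∈ sizes (Quaternion ℝ) n (2 * n + k)) :
    (p : ℝ) ≤ max ((2 * (n0 : ℝ) + k) * (4 * n0 + 4 * k + 2) / (2 * n0))
      (LL (4 * k) + 4 * n0 + 8 * k + 3) := by
  have h := sizes_uniform hn0 hn hk hp
  rw [Quaternion.finrank_eq_four] at h
  refine h.trans (le_of_eq ?_)
  push_cast
  congr 1
  ring

/-- The largest number of equi-isoclinic `n`-subspaces that together span `ℝ ^ (2 n + k)`, over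
all `n ≥ 2`. -/
noncomputable def w2 (k : ℕ) : ℕ := sSup {p | ∃ n, 2 ≤ n ∧ p ∈ sizes ℝ n (2 * n + k)}

theorem w2_bdd {k : ℕ} (hk : 8192 ≤ k) :
    BddAbove {p | ∃ n, 2 ≤ n ∧ p ∈ sizes ℝ n (2 * n + k)} := by
  refine ⟨(k + 4) ^ 2, ?_⟩
  rintro p ⟨n, hn, hp⟩
  have h := real_large (n0 := 2) (by norm_num) hn (by omega) hp
  have h2 : (p : ℝ) ≤ ((k : ℝ) + 4) ^ 2 := by
    refine h.trans ?_
    push_cast
    nlinarith [sq_nonneg ((k : ℝ) + 4)]
  exact_mod_cast h2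

theorem w2_le {k : ℕ} (hk : 8192 ≤ k) : (w2 k : ℝ) ≤ ((k : ℝ) + 4) ^ 2 / 4 := by
  unfold w2
  rcases Set.eq_empty_or_nonempty {p | ∃ n, 2 ≤ n ∧ p ∈ sizes ℝ n (2 * n + k)} with h | h
  · rw [h]
    simp
    positivity
  · obtain ⟨n, hn, hp⟩ := Nat.sSup_mem h (w2_bdd hk)
    refine (real_large (n0 := 2) (by norm_num) hn (by omega) hp).trans (le_of_eq ?_)
    push_cast
    ring

theorem w2_limsup :
    Filter.limsup (fun k : ℕ => (w2 k : ℝ) / (k : ℝ) ^ 2) Filter.atTop = 1 / 4 := by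
  have hev : ∀ ε : ℝ, 0 < ε → ∀ᶠ k : ℕ in Filter.atTop,
      (w2 k : ℝ) / (k : ℝ) ^ 2 ≤ 1 / 4 + ε := by
    intro ε hε
    obtain ⟨k0, hk0⟩ := exists_nat_ge (6 / ε)
    refine Filter.eventually_atTop.mpr ⟨max 8192 k0, fun k hk => ?_⟩
    have hk1 : 8192 ≤ k := (le_max_left _ _).trans hk
    have hk2 : (8192 : ℝ) ≤ k := by exact_mod_cast hk1
    have hk3 : 6 / ε ≤ k := hk0.trans (by exact_mod_cast (le_max_right _ _).trans hk)
    rw [div_le_iff₀ hε] at hk3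
    rw [div_le_iff₀ (by positivity)]
    refine (w2_le hk1).trans ?_
    nlinarith
  have hbd : Filter.IsBoundedUnder (· ≤ ·) Filter.atTop
      (fun k : ℕ => (w2 k : ℝ) / (k : ℝ) ^ 2) :=
    ⟨1 / 4 + 1, Filter.eventually_map.mpr (hev 1 one_pos)⟩
  have hcob : Filter.IsCoboundedUnder (· ≤ ·) Filter.atTop
      (fun k : ℕ => (w2 k : ℝ) / (k : ℝ) ^ 2) :=
    Filter.IsCoboundedUnder.of_frequently_ge (a := (0 : ℝ))
      (Filter.Frequently.of_forall fun r => by positivity)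
  apply le_antisymm
  · refine le_of_forall_pos_le_add fun ε hε => ?_
    exact Filter.limsup_le_of_le hcob (hev ε hε)
  · refine le_of_forall_pos_le_add fun ε hε => ?_
    have hfr : ∃ᶠ k : ℕ in Filter.atTop, 1 / 4 - ε ≤ (w2 k : ℝ) / (k : ℝ) ^ 2 := by
      rw [Filter.frequently_atTop]
      intro k₀
      obtain ⟨r, hr, p, hp, h⟩ := planes_lower (min ε (1 / 4)) (by positivity) (max (k₀ + 4) 8196)
      have hr4 : k₀ + 4 ≤ r := (le_max_left _ _).trans hr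
      have hr5 : 8196 ≤ r := (le_max_right _ _).trans hr
      obtain ⟨k, rfl⟩ : ∃ k, r = 2 * 2 + k := ⟨r - 4, by omega⟩
      refine ⟨k, by omega, ?_⟩
      have h1 : (p : ℝ) ≤ w2 k := by
        exact_mod_cast le_csSup (w2_bdd (by omega)) ⟨2, le_rfl, hp⟩
      have hk0 : 8192 ≤ k := by omega
      have hk : (8192 : ℝ) ≤ k := by exact_mod_cast hk0
      rw [le_div_iff₀ (by positivity)]
      push_cast at h
      have h2 : min ε (1 / 4) ≤ ε := min_le_left _ _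
      have h3 : min ε (1 / 4 : ℝ) ≤ 1 / 4 := min_le_right _ _
      have h4 : (1 / 4 - min ε (1 / 4)) * (k : ℝ) ^ 2 ≤
          (1 / 4 - min ε (1 / 4)) * (2 * 2 + k) ^ 2 := by
        apply mul_le_mul_of_nonneg_left _ (by linarith)
        exact pow_le_pow_left₀ (by positivity) (by linarith) 2
      have h5 : (1 / 4 - ε) * (k : ℝ) ^ 2 ≤ (1 / 4 - min ε (1 / 4)) * (k : ℝ) ^ 2 := by
        apply mul_le_mul_of_nonneg_right _ (by positivity)
        linarith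
      linarith
    have := Filter.le_limsup_of_frequently_le hfr hbd
    linarith

end Pool.Agent.EI28U
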