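import Pool.Agent.H32Iso.DirectSum

set_option autoImplicit false

/-! Families of `k + 2` members for the excess `k`, in arbitrarily large dimensions. -/

namespace Pool.Agent.EI28U

open Finset Module Pool.Agent.H32Iso

section

variable {F : Type} [NormedDivisionRing F] [InnerProductSpace ℝ F] [IsScalarTower ℝ F F]
  [SMulCommClass ℝ F F] {p d : ℕ}

/-- a real vector as a vector over `F` -/
noncomputable def toF (v : Fin d → ℝ) : Sp F d := WithLp.toLp 2 (fun a => v a • (1 : F))

omit [SMulCommClass ℝ F F] [IsScalarTower ℝ F F] in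
theorem toF_apply (v : Fin d → ℝ) (a : Fin d) : (toF v : Sp F d) a = v a • (1 : F) := rfl

/-- the pairing with a real vector -/
noncomputable def pr (v : Fin d → ℝ) (x : Sp F d) : F := ∑ a, v a • x a

omit [IsScalarTower ℝ F F] in
theorem pr_smul_toF (v u : Fin d → ℝ) (c : F) :
    pr v (c • (toF u : Sp F d)) = (∑ a, v a * u a) • c := by
  unfold pr
  rw [sum_smul]
  refine sum_congr rfl fun a _ => ?_
  rw [PiLp.smul_apply, toF_apply, smul_eq_mul, mul_smul_comm, mul_one, smul_smul]

omit [IsScalarTower ℝ F F] in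
theorem proj_toF (v : Fin d → ℝ) (hv : ∑ a, v a * v a = 1) {x y : Sp F d}
    (h : IsProj (Submodule.span F {(toF v : Sp F d)}) x y) : y = pr v x • (toF v : Sp F d) := by
  obtain ⟨hy, hxy⟩ := h
  obtain ⟨c, rfl⟩ := Submodule.mem_span_singleton.mp hy
  have h1 := hxy ((pr v x - c) • toF v)
    (Submodule.smul_mem _ _ (Submodule.mem_span_singleton_self _))
  have h2 : inner ℝ (x - c • (toF v : Sp F d)) ((pr v x - c) • toF v) =
      inner ℝ (pr v (x - c • (toF v : Sp F d))) (pr v x - c) := by
    rw [PiLp.inner_apply]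
    unfold pr
    rw [sum_inner]
    refine sum_congr rfl fun a _ => ?_
    rw [PiLp.smul_apply, toF_apply, smul_eq_mul, mul_smul_comm, mul_one, inner_smul_right,
      inner_smul_left]
    simp
  have h3 : pr v (x - c • (toF v : Sp F d)) = pr v x - c := by
    have e : pr v (x - c • (toF v : Sp F d)) = pr v x - pr v (c • (toF v : Sp F d)) := by
      unfold pr
      rw [← sum_sub_distrib]
      exact sum_congr rfl fun a _ => by rw [PiLp.sub_apply, smul_sub]
    rw [e, pr_smul_toF, hv, one_smul]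
  rw [h2, h3] at h1
  rw [sub_eq_zero.mp (inner_self_eq_zero.mp h1)]

theorem lines_real (v : Fin p → Fin d → ℝ) (a : ℝ) (ha : a ^ 2 < 1)
    (h1 : ∀ i, ∑ b, v i b * v i b = 1) (h2 : ∀ i j, i ≠ j → ∑ b, v i b * v j b = a)
    (hspan : ⨆ i, Submodule.span F {(toF (v i) : Sp F d)} = ⊤) :
    EquiIsoclinic F 1 d p (a ^ 2) (fun i => Submodule.span F {(toF (v i) : Sp F d)}) where
  nonneg := sq_nonneg a
  lt_one := ha
  rank := by
    intro i
    apply finrank_span_singleton
    intro h
    have h3 : ∀ b, v i b = 0 := by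
      intro b
      have := congrArg (fun z : Sp F d => z b) h
      simpa [toF_apply] using this
    have := h1 i
    simp [h3] at this
  span := hspan
  iso := by
    intro i j hij x y z w e1 e2 e3
    have f1 := proj_toF _ (h1 i) e1
    have f2 := proj_toF _ (h1 j) e2
    have f3 := proj_toF _ (h1 i) e3
    rw [f3, f2, pr_smul_toF, f1, pr_smul_toF, h2 i j hij, h2 j i hij.symm, smul_smul]
    ext b
    simp only [PiLp.smul_apply, smul_eq_mul]
    rw [smul_mul_assoc, sq]

/-- `p` lines of `F ^ p` with angle parameter `9 / 16` -/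
theorem simplex_lines (hp : 1 ≤ p) :
    ∃ V : Fin p → Submodule F (Sp F p), EquiIsoclinic F 1 p p ((3 / 4 : ℝ) ^ 2) V := by
  have hpR : (1 : ℝ) ≤ p := by exact_mod_cast hp
  obtain ⟨β, hβ0, hβ⟩ : ∃ β : ℝ, 0 < β ∧ p * β ^ 2 + β = 3 / 4 := by
    obtain ⟨s, hs1, hs⟩ : ∃ s : ℝ, 1 < s ∧ s ^ 2 = 1 + 3 * p :=
      ⟨√(1 + 3 * p), by rw [Real.lt_sqrt (by norm_num)]; linarith, Real.sq_sqrt (by linarith)⟩
    refine ⟨(s - 1) / (2 * p), div_pos (by linarith) (by linarith), ?_⟩
    have hp0 : (p : ℝ) ≠ 0 := by linarith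
    have e : p * ((s - 1) / (2 * p)) ^ 2 + (s - 1) / (2 * p) = (s ^ 2 - 1) / (4 * p) := by
      field_simp
      ring
    rw [e, hs]
    field_simp
    ring
  set v : Fin p → Fin p → ℝ := fun i b => (if b = i then 1 / 2 else 0) + β with hv
  have hsum : ∀ i j : Fin p, ∑ b, v i b * v j b = (if i = j then 1 / 4 else 0) + 3 / 4 := by
    intro i j
    have e : ∀ b, v i b * v j b = (if b = i then (if b = j then 1 / 4 else 0) else 0)
        + (if b = i then β / 2 else 0) + (if b = j then β / 2 else 0) + β ^ 2 := by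
      intro b
      simp only [hv]
      split_ifs <;> ring
    simp only [e, sum_add_distrib, sum_ite_eq', mem_univ, if_true, sum_const, card_univ,
      Fintype.card_fin, nsmul_eq_mul]
    linarith
  refine ⟨_, lines_real v (3 / 4) (by norm_num) (fun i => ?_) (fun i j hij => ?_) ?_⟩
  · rw [hsum, if_pos rfl]; norm_num
  · rw [hsum, if_neg hij]; norm_num
  · rw [eq_top_iff]
    set W := ⨆ i, Submodule.span F {(toF (v i) : Sp F p)} with hW
    have hmem : ∀ i, (toF (v i) : Sp F p) ∈ W := fun i =>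
      Submodule.mem_iSup_of_mem i (Submodule.mem_span_singleton_self _)
    have hsmul : ∀ (c : ℝ) (x : Sp F p), x ∈ W → c • x ∈ W := by
      intro c x hx
      have : c • x = (c • (1 : F)) • x := by
        ext b
        simp
      rw [this]
      exact W.smul_mem _ hx
    -- the all-one vector
    have hone : (toF (fun _ => 1) : Sp F p) ∈ W := by
      have h1 : (toF (fun _ => 1 / 2 + p * β) : Sp F p) = ∑ i, toF (v i) := by
        ext b
        rw [WithLp.ofLp_sum, Finset.sum_apply]
        simp only [toF_apply, ← sum_smul]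
        congr 1
        simp only [hv, sum_add_distrib, sum_ite_eq, mem_univ, if_true, sum_const, card_univ,
          Fintype.card_fin, nsmul_eq_mul]
      have h2 : (toF (fun _ => 1) : Sp F p) =
          (1 / 2 + p * β)⁻¹ • (toF (fun _ => 1 / 2 + p * β) : Sp F p) := by
        ext b
        rw [PiLp.smul_apply, toF_apply, toF_apply, smul_smul, inv_mul_cancel₀ (by positivity)]
      rw [h2, h1]
      exact hsmul _ _ (W.sum_mem fun i _ => hmem i)
    have hbasis : ∀ i : Fin p, (toF (fun b => if b = i then 1 else 0) : Sp F p) ∈ W := by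
      intro i
      have h1 : (toF (fun b => if b = i then 1 else 0) : Sp F p) =
          (2 : ℝ) • (toF (v i) - β • (toF (fun _ => 1) : Sp F p)) := by
        ext b
        rw [PiLp.smul_apply, PiLp.sub_apply, PiLp.smul_apply, toF_apply, toF_apply, toF_apply,
          smul_smul, ← sub_smul, smul_smul]
        congr 1
        simp only [hv]
        split_ifs <;> ring
      rw [h1]
      exact hsmul _ _ (W.sub_mem (hmem i) (hsmul _ _ hone))
    intro x _
    have hx : x = ∑ i, x i • (toF (fun b => if b = i then 1 else 0) : Sp F p) := by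
      ext b
      rw [WithLp.ofLp_sum, Finset.sum_apply]
      simp [toF_apply]
    rw [hx]
    exact W.sum_mem fun i _ => W.smul_mem _ (hbasis i)

theorem simplex_blocks [FiniteDimensional ℝ F] (hp : 2 ≤ p) (j : ℕ) :
    ∃ V : Fin p → Submodule F (Sp F (p + j * 2 ^ (p + 1))),
      EquiIsoclinic F (1 + j * 2 ^ p) (p + j * 2 ^ (p + 1)) p ((3 / 4 : ℝ) ^ 2) V := by
  induction j with
  | zero =>
    rw [show p + 0 * 2 ^ (p + 1) = p by simp, show 1 + 0 * 2 ^ p = 1 by simp]
    exact simplex_lines (by omega)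
  | succ j ih =>
    obtain ⟨V, h⟩ := ih
    have hp0 : (1 : ℝ) ≤ p := by exact_mod_cast (by omega : 1 ≤ p)
    obtain ⟨Z, T, hZ1, hZ2, hZ3, hT, hTZ⟩ := exists_simplex p p le_rfl (2 * (3 / 4 : ℝ) ^ 2 - 1)
      (by norm_num) (by
        have : 0 ≤ ((p : ℝ) - 1) * (2 * (3 / 4 : ℝ) ^ 2 - 1) :=
          mul_nonneg (by linarith) (by norm_num)
        linarith)
    have h3 := h.block hp (D := 2 ^ p) (by ring) Z T T hZ1 hZ2 hZ3 hT hTZ
    have e1 : p + (j + 1) * 2 ^ (p + 1) = p + j * 2 ^ (p + 1) + 2 ^ (p + 1) := by ring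
    have e2 : 1 + (j + 1) * 2 ^ p = 1 + j * 2 ^ p + 2 ^ p := by ring
    rw [e1, e2]
    exact ⟨_, h3⟩

/-- For the excess `k` there are `k + 2` members in arbitrarily large dimensions. -/
theorem lower (F : Type) [NormedDivisionRing F] [InnerProductSpace ℝ F] [IsScalarTower ℝ F F]
    [SMulCommClass ℝ F F] [FiniteDimensional ℝ F] (k j : ℕ) :
    k + 2 ∈ sizes F (1 + j * 2 ^ (k + 2)) (2 * (1 + j * 2 ^ (k + 2)) + k) := by
  obtain ⟨V, h⟩ := simplex_blocks (F := F) (p := k + 2) (by omega) j
  have e : 2 * (1 + j * 2 ^ (k + 2)) + k = k + 2 + j * 2 ^ (k + 2 + 1) := by ring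
  rw [e]
  exact ⟨_, V, h⟩

end

end Pool.Agent.EI28U
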