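import Pool.Agent.H32Iso.Main

set_option autoImplicit false

/-! Restriction of a configuration to the complement of the common kernel. -/

namespace Pool.Agent.EI28U

open Module Pool.Agent.H32Iso

variable {W : Type*} [NormedAddCommGroup W] [InnerProductSpace ℝ W] [FiniteDimensional ℝ W]
  {ι : Type*} [DecidableEq ι] {lam : ℝ} {P : ι → W →ₗ[ℝ] W}

/-- restriction to an invariant subspace -/
def rst (P : ι → W →ₗ[ℝ] W) (E : Submodule ℝ W) (hinv : ∀ i, ∀ x ∈ E, P i x ∈ E) (i : ι) :
    E →ₗ[ℝ] E := (P i).restrict (hinv i)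

omit [FiniteDimensional ℝ W] [DecidableEq ι] in
theorem rst_apply (E : Submodule ℝ W) (hinv : ∀ i, ∀ x ∈ E, P i x ∈ E) (i : ι) (x : E) :
    (rst P E hinv i x : W) = P i x := rfl

omit [FiniteDimensional ℝ W] [DecidableEq ι] in
theorem cfg_rst (h : Cfg lam P) (E : Submodule ℝ W) (hinv : ∀ i, ∀ x ∈ E, P i x ∈ E) :
    Cfg lam (rst P E hinv) where
  sym := fun i x y => by
    rw [Submodule.coe_inner, Submodule.coe_inner, rst_apply, rst_apply, h.sym]
  idem := fun i x => Subtype.ext (h.idem i x)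
  iso := fun i j hij x => Subtype.ext (h.iso i j hij x)

omit [FiniteDimensional ℝ W] [DecidableEq ι] in
theorem R_rst (E : Submodule ℝ W) (hinv : ∀ i, ∀ x ∈ E, P i x ∈ E) (i j : ι) (x : E) :
    (R lam (rst P E hinv) i j x : W) = R lam P i j x := rfl

omit [FiniteDimensional ℝ W] [DecidableEq ι] in
theorem map_ker_rst (E : Submodule ℝ W) (hinv : ∀ i, ∀ x ∈ E, P i x ∈ E) (i j : ι) :
    (LinearMap.ker (R lam (rst P E hinv) i j)).map E.subtype = E ⊓ LinearMap.ker (R lam P i j) := by
  ext x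
  constructor
  · rintro ⟨y, hy, rfl⟩
    refine ⟨y.2, ?_⟩
    rw [SetLike.mem_coe, LinearMap.mem_ker] at hy ⊢
    have := congrArg (Subtype.val) hy
    rw [R_rst] at this
    exact this
  · rintro ⟨hx, hx2⟩
    refine ⟨⟨x, hx⟩, ?_, rfl⟩
    rw [SetLike.mem_coe, LinearMap.mem_ker] at hx2 ⊢
    apply Subtype.ext
    rw [R_rst]
    exact hx2

/-- The ranks on the complement of the common kernel. -/
theorem rank_add [Fintype ι] (h : Cfg lam P) (hlam : lam ≠ 1) {N : ℕ}
    (hN : ∀ i, finrank ℝ (LinearMap.range (P i)) = N)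
    (hinv : ∀ i, ∀ x ∈ (K lam P Finset.univ)ᗮ, P i x ∈ (K lam P Finset.univ)ᗮ)
    {i j : ι} (hij : i ≠ j) :
    finrank ℝ (K lam P Finset.univ) + (finrank ℝ (LinearMap.range (rst P _ hinv i)) +
      finrank ℝ (LinearMap.range (rst P _ hinv j))) = 2 * N := by
  set E := (K lam P Finset.univ)ᗮ with hE
  have hE' := cfg_rst h E hinv
  have h1 := Submodule.finrank_sup_add_finrank_inf_eq (LinearMap.range (rst P E hinv i))
    (LinearMap.range (rst P E hinv j))
  rw [hE'.range_inf hlam hij, finrank_bot, add_zero] at h1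
  have h2 : LinearMap.range (rst P E hinv i) ⊔ LinearMap.range (rst P E hinv j) =
      LinearMap.ker (R lam (rst P E hinv) i j) :=
    le_antisymm (hE'.sup_le_ker hij) (hE'.ker_le_sup hlam)
  have h3 : finrank ℝ (LinearMap.ker (R lam (rst P E hinv) i j)) =
      finrank ℝ (E ⊓ LinearMap.ker (R lam P i j) : Submodule ℝ W) := by
    rw [← map_ker_rst E hinv i j, Submodule.finrank_map_subtype_eq]
  have h4 : K lam P Finset.univ ≤ LinearMap.ker (R lam P i j) := by
    intro x hx
    exact hx i (Finset.mem_univ _) j (Finset.mem_univ _) hij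
  have h5 := Submodule.finrank_add_inf_finrank_orthogonal h4
  have h6 : LinearMap.ker (R lam P i j) = LinearMap.range (P i) ⊔ LinearMap.range (P j) :=
    le_antisymm (h.ker_le_sup hlam) (h.sup_le_ker hij)
  have h7 : finrank ℝ (LinearMap.ker (R lam P i j)) = 2 * N := by
    rw [h6, h.finrank_sup hlam hN hij]
  rw [h7, ← hE, ← h3, ← h2, h1] at h5
  exact h5

/-- Everything about the complement of the common kernel. -/
theorem exists_core [Fintype ι] (h : Cfg lam P) (hlam : lam ≠ 1) {N k : ℕ} (hk : 0 < k)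
    (hN : ∀ i, finrank ℝ (LinearMap.range (P i)) = N) (hW : finrank ℝ W = 2 * N + k)
    (hspan : ⨆ i, LinearMap.range (P i) = ⊤) (h3 : 3 ≤ Fintype.card ι) :
    ∃ (N' : ℕ) (hinv : ∀ i, ∀ x ∈ (K lam P Finset.univ)ᗮ, P i x ∈ (K lam P Finset.univ)ᗮ),
      1 ≤ N' ∧ (∀ i, finrank ℝ (LinearMap.range (rst P _ hinv i)) = N') ∧
      finrank ℝ (K lam P Finset.univ)ᗮ = 2 * N' + k ∧
      finrank ℝ (K lam P Finset.univ) + 2 * N' = 2 * N := by
  have hinv : ∀ i, ∀ x ∈ (K lam P Finset.univ)ᗮ, P i x ∈ (K lam P Finset.univ)ᗮ :=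
    fun i x hx => h.K_orth_inv hlam (Finset.mem_univ i) hx
  have hadd := fun (i j : ι) (hij : i ≠ j) => rank_add h hlam hN hinv hij
  have hne : Nonempty ι := Fintype.card_pos_iff.mp (by omega)
  obtain ⟨l⟩ := hne
  set e : ι → ℕ := fun i => finrank ℝ (LinearMap.range (rst P _ hinv i)) with he
  have heq : ∀ i j, e i = e j := by
    intro i j
    by_cases hij : i = j
    · rw [hij]
    obtain ⟨t, ht⟩ : ∃ t, t ∉ ({i, j} : Finset ι) := by
      by_contra hcon
      push Not at hcon
      have h4 : Finset.univ ⊆ ({i, j} : Finset ι) := fun t _ => hcon t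
      have h5 := Finset.card_le_card h4
      rw [Finset.card_univ, Finset.card_pair hij] at h5
      omega
    simp only [Finset.mem_insert, Finset.mem_singleton, not_or] at ht
    have h1 := hadd i t (Ne.symm ht.1)
    have h2 := hadd j t (Ne.symm ht.2)
    show finrank ℝ (LinearMap.range (rst P _ hinv i)) = finrank ℝ (LinearMap.range (rst P _ hinv j))
    omega
  obtain ⟨j, hj⟩ : ∃ j, j ≠ l := by
    haveI : Nontrivial ι := Fintype.one_lt_card_iff_nontrivial.mp (by omega)
    exact exists_ne l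
  have hsum : finrank ℝ (K lam P Finset.univ) + 2 * e l = 2 * N := by
    have h1 := hadd l j (Ne.symm hj)
    have h2 := heq l j
    have h3 : finrank ℝ (LinearMap.range (rst P _ hinv l)) = e l := rfl
    have h4 : finrank ℝ (LinearMap.range (rst P _ hinv j)) = e j := rfl
    omega
  refine ⟨e l, hinv, ?_, fun i => heq i l, ?_, hsum⟩
  · obtain ⟨x, hx, hne⟩ := h.exists_ne_zero hlam hk hN hW hspan (by omega) l
    by_contra hcon
    have h0 : e l = 0 := by omega
    have h1 : LinearMap.range (rst P _ hinv l) = ⊥ := Submodule.finrank_eq_zero.mp h0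
    apply hne
    have h2 : rst P _ hinv l ⟨x, hx⟩ ∈ LinearMap.range (rst P _ hinv l) := ⟨_, rfl⟩
    rw [h1, Submodule.mem_bot] at h2
    exact congrArg Subtype.val h2
  · have horth := Submodule.finrank_add_finrank_orthogonal (𝕜 := ℝ) (K lam P Finset.univ)
    omega

end Pool.Agent.EI28U
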