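import Pool.Agent.EI28U.Core
import Pool.Agent.H94EI.Singer

set_option autoImplicit false

/-! The uniform bound for the members of `sizes F n (2 n + k)`. -/

namespace Pool.Agent.EI28U

open Finset Module Pool.Agent.H32Iso Pool.Agent.H94EI

theorem sizes_uniform {F : Type} [NormedDivisionRing F] [InnerProductSpace ℝ F]
    [IsScalarTower ℝ F F] [FiniteDimensional ℝ F] {n n0 k p : ℕ}
    (hn0 : 1 ≤ n0) (hle : n0 ≤ n) (hk : 1 ≤ k) (hp : p ∈ sizes F n (2 * n + k)) :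
    (p : ℝ) ≤ max ((2 * (n0 : ℝ) + k) * ((finrank ℝ F : ℝ) * n0 + (finrank ℝ F : ℝ) * k + 2)
        / (2 * n0))
      (LL (finrank ℝ F * k) + (finrank ℝ F : ℝ) * n0 + 2 * ((finrank ℝ F : ℝ) * k) + 3) := by
  obtain ⟨lam, V, h⟩ := hp
  have hF : 0 < finrank ℝ F := finrank_pos
  have hF' : (0 : ℝ) < finrank ℝ F := by exact_mod_cast hF
  have hn0' : (0 : ℝ) < n0 := by exact_mod_cast hn0
  have h1 := core h.cfg h.nonneg h.lt_one (N := finrank ℝ F * n) (m := finrank ℝ F * k)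
    (N0 := finrank ℝ F * n0) (Nat.mul_pos hF hk) h.finrank_range
    (by rw [finrank_Sp]; ring) h.iSup_range (Nat.mul_pos hF hn0) (Nat.mul_le_mul_left _ hle)
  have e : fR ((finrank ℝ F * n0 : ℕ) : ℝ) ((finrank ℝ F * k : ℕ) : ℝ) =
      (2 * (n0 : ℝ) + k) * ((finrank ℝ F : ℝ) * n0 + (finrank ℝ F : ℝ) * k + 2) / (2 * n0) := by
    unfold fR
    push_cast
    field_simp
  rw [e] at h1
  push_cast at h1
  exact h1

/-- For large `n` the bound is nearly linear in `k`. -/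
theorem sizes_large {F : Type} [NormedDivisionRing F] [InnerProductSpace ℝ F]
    [IsScalarTower ℝ F F] [FiniteDimensional ℝ F] {n k p : ℕ} (hk : 1 ≤ k)
    (hn : LL (finrank ℝ F * k) < (finrank ℝ F : ℝ) * n) (hp : p ∈ sizes F n (2 * n + k)) :
    (p : ℝ) ≤ LL (finrank ℝ F * k) + 2 * ((finrank ℝ F : ℝ) * k) + 3 := by
  obtain ⟨lam, V, h⟩ := hp
  have hF : 0 < finrank ℝ F := finrank_pos
  have h1 := core_or h.cfg h.nonneg h.lt_one (N := finrank ℝ F * n) (m := finrank ℝ F * k)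
    (Nat.mul_pos hF hk) h.finrank_range (by rw [finrank_Sp]; ring) h.iSup_range
  push_cast at h1
  rcases h1 with h1 | ⟨h1, _⟩
  · exact h1
  · linarith

/-- `2 ^ l` beats a polynomial. -/
theorem pow_ge (l : ℕ) (hl : 11 ≤ l) :
    ((4 * l + 15) * (2 * l + 9) + 2) ^ 2 ≤ 2048 * 2 ^ l := by
  induction l, hl using Nat.le_induction with
  | base => norm_num
  | succ a ha ih =>
    obtain ⟨b, rfl⟩ : ∃ b, a = b + 11 := ⟨a - 11, by omega⟩
    have h : ((4 * (b + 11 + 1) + 15) * (2 * (b + 11 + 1) + 9) + 2) ^ 2 ≤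
        2 * ((4 * (b + 11) + 15) * (2 * (b + 11) + 9) + 2) ^ 2 := by
      have e1 : (4 * (b + 11 + 1) + 15) * (2 * (b + 11 + 1) + 9) + 2 =
          8 * b ^ 2 + 258 * b + 2081 := by ring
      have e2 : (4 * (b + 11) + 15) * (2 * (b + 11) + 9) + 2 =
          8 * b ^ 2 + 242 * b + 1831 := by ring
      rw [e1, e2]
      have h3 : 5 * (8 * b ^ 2 + 258 * b + 2081) ≤ 7 * (8 * b ^ 2 + 242 * b + 1831) := by
        nlinarith [Nat.zero_le b, Nat.zero_le (b ^ 2)]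
      have h4 := Nat.pow_le_pow_left h3 2
      rw [mul_pow, mul_pow] at h4
      omega
    calc _ ≤ 2 * ((4 * (b + 11) + 15) * (2 * (b + 11) + 9) + 2) ^ 2 := h
      _ ≤ 2 * (2048 * 2 ^ (b + 11)) := Nat.mul_le_mul_left _ ih
      _ = 2048 * 2 ^ (b + 11 + 1) := by rw [pow_succ]; ring

theorem log_mul_le {c k : ℕ} (hc : c ≤ 4) (hk : 1 ≤ k) : Nat.log 2 (c * k) ≤ Nat.log 2 k + 2 := by
  have h1 : Nat.log 2 (c * k) ≤ Nat.log 2 (k * 2 * 2) := Nat.log_mono_right (by nlinarith)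
  rw [Nat.log_mul_base (by norm_num) (by omega), Nat.log_mul_base (by norm_num) (by omega)] at h1
  exact h1

theorem large_uniform {F : Type} [NormedDivisionRing F] [InnerProductSpace ℝ F]
    [IsScalarTower ℝ F F] [FiniteDimensional ℝ F] (hc : finrank ℝ F ≤ 4) {n n0 k p : ℕ}
    (hn0 : 1 ≤ n0) (hn : n0 ≤ n) (hk : 2048 * n0 ^ 2 ≤ k) (hp : p ∈ sizes F n (2 * n + k)) :
    (p : ℝ) ≤ (2 * (n0 : ℝ) + k) * ((finrank ℝ F : ℝ) * n0 + (finrank ℝ F : ℝ) * k + 2)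
        / (2 * n0) := by
  have hn2 : 1 ≤ n0 ^ 2 := Nat.one_le_pow _ _ hn0
  have hk2 : 2048 ≤ k := by omega
  have hk1 : 1 ≤ k := by omega
  have h := sizes_uniform hn0 hn hk1 hp
  have hF : 1 ≤ finrank ℝ F := finrank_pos
  have hF1 : (1 : ℝ) ≤ finrank ℝ F := by exact_mod_cast hF
  have hF4 : (finrank ℝ F : ℝ) ≤ 4 := by exact_mod_cast hc
  have hn0R : (1 : ℝ) ≤ n0 := by exact_mod_cast hn0
  have hkR : (2048 : ℝ) ≤ k := by exact_mod_cast hk2
  set c : ℝ := (finrank ℝ F : ℝ) with hcdef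
  set l : ℕ := Nat.log 2 k with hl
  have hl11 : 11 ≤ l := by
    rw [hl]
    exact (Nat.le_log_iff_pow_le (by norm_num) (by omega)).mpr (by simpa using hk2)
  have hpow : 2 ^ l ≤ k := Nat.pow_log_le_self 2 (by omega)
  have h1 := pow_ge l hl11
  have hA : n0 * ((4 * l + 15) * (2 * l + 9) + 2) ≤ k := by
    have h5 : (n0 * ((4 * l + 15) * (2 * l + 9) + 2)) ^ 2 ≤ k ^ 2 := by
      calc (n0 * ((4 * l + 15) * (2 * l + 9) + 2)) ^ 2
          = n0 ^ 2 * ((4 * l + 15) * (2 * l + 9) + 2) ^ 2 := by rw [mul_pow]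
        _ ≤ n0 ^ 2 * (2048 * 2 ^ l) := Nat.mul_le_mul_left _ h1
        _ = (2048 * n0 ^ 2) * 2 ^ l := by ring
        _ ≤ k * k := Nat.mul_le_mul hk hpow
        _ = k ^ 2 := by ring
    exact (Nat.pow_le_pow_iff_left (by norm_num)).mp h5
  have h2 : (n0 : ℝ) * ((4 * (l : ℝ) + 15) * (2 * l + 9) + 2) ≤ k := by exact_mod_cast hA
  have h3 : LL (finrank ℝ F * k) ≤ c * k * ((4 * (l : ℝ) + 15) * (2 * l + 9)) / 2 := by
    unfold LL
    have h4 : (Nat.log 2 (finrank ℝ F * k) : ℝ) ≤ l + 2 := by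
      exact_mod_cast log_mul_le hc hk1
    have h5 : (0 : ℝ) ≤ Nat.log 2 (finrank ℝ F * k) := Nat.cast_nonneg _
    push_cast
    rw [← hcdef]
    have h6 : (4 * (Nat.log 2 (finrank ℝ F * k) : ℝ) + 7) *
        (2 * (Nat.log 2 (finrank ℝ F * k) : ℝ) + 5) ≤ (4 * (l : ℝ) + 15) * (2 * l + 9) :=
      mul_le_mul (by linarith) (by linarith) (by positivity) (by positivity)
    have h7 : 0 ≤ c * k := by positivity
    have := mul_le_mul_of_nonneg_left h6 h7
    linarith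
  refine h.trans (max_le le_rfl ?_)
  have e : (2 * (n0 : ℝ) + k) * (c * n0 + c * k + 2) / (2 * n0) =
      c * k * k / (2 * n0) + 3 / 2 * c * k + k / n0 + c * n0 + 2 := by
    field_simp
    ring
  rw [e]
  have h8 : (4 * (l : ℝ) + 15) * (2 * l + 9) + 2 ≤ k / n0 := by
    rw [le_div_iff₀ (by linarith)]
    linarith
  have h9 : c * k * ((4 * (l : ℝ) + 15) * (2 * l + 9)) / 2 + c * k ≤ c * k * k / (2 * n0) := by
    have h10 : 0 ≤ c * k := by positivity
    have h11 := mul_le_mul_of_nonneg_left h8 h10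
    have e3 : c * k * k / (2 * n0) = c * k * (k / n0) / 2 := by
      field_simp
    rw [e3]
    linarith
  have h12 : 0 ≤ (k : ℝ) / n0 := by positivity
  have h13 : 2 ≤ c * k := by nlinarith
  linarith

end Pool.Agent.EI28U
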